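import Mathlib
import Pool.Agent.Helper30.CIR.Goals

/-!
# Project CIR, packet NUL: diffeomorphisms preserve null sets
-/

set_option autoImplicit false

open Set Filter Topology MeasureTheory

open scoped ContDiff

namespace Pool.Agent.Helper78.CIR

open Pool.Agent.Helper56.RZ

/-- images of Lebesgue null sets under the parametrisation are null -/
theorem null_of_chart {N K : ℕ} {M : Set (E K)} {m : Measure (E K)} (c : Chart N K M)
    (hc : LebesgueChart c m) (B : Set (E N)) (hB : B ⊆ c.V) (h0 : volume B = 0) :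
    m (c.ψ '' B) = 0 := by
  have h1 : volume (toMeasurable volume B ∩ c.V) = 0 :=
    measure_mono_null inter_subset_left ((measure_toMeasurable B).trans h0)
  have h2 := hc (toMeasurable volume B ∩ c.V)
    ((measurableSet_toMeasurable _ _).inter c.openV.measurableSet) inter_subset_right
  rw [h1] at h2
  exact measure_mono_null (image_mono (subset_inter (subset_toMeasurable _ _) hB)) h2

/-- null sets of `m` in the chart are Lebesgue null -/
theorem null_in_chart {N K : ℕ} {M : Set (E K)} {m : Measure (E K)} (c : Chart N K M)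
    (hc : LebesgueChart c m) (S : Set (E K)) (h0 : m S = 0) :
    volume (c.V ∩ c.ψ ⁻¹' S) = 0 := by
  have hT : m (toMeasurable m S) = 0 := (measure_toMeasurable S).trans h0
  have hm : MeasurableSet (c.V ∩ c.ψ ⁻¹' (toMeasurable m S)) := by
    have hme : Measurable (c.V.restrict c.ψ) :=
      (continuousOn_iff_continuous_restrict.1 c.smoothψ.continuousOn).measurable
    have h1 := hme (measurableSet_toMeasurable m S)
    have h2 := c.openV.measurableSet.subtype_image h1
    have h3 : (Subtype.val '' (c.V.restrict c.ψ ⁻¹' (toMeasurable m S)) : Set (E N)) =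
        c.V ∩ c.ψ ⁻¹' (toMeasurable m S) := by
      ext z
      simp only [mem_image, mem_preimage, Subtype.exists, mem_inter_iff, restrict_apply]
      constructor
      · rintro ⟨a, ha, h, rfl⟩
        exact ⟨ha, h⟩
      · rintro ⟨ha, h⟩
        exact ⟨z, ha, h, rfl⟩
    rwa [h3] at h2
  have h2 := hc _ hm inter_subset_left
  have h3 : m (c.ψ '' (c.V ∩ c.ψ ⁻¹' (toMeasurable m S))) = 0 := by
    apply measure_mono_null _ hT
    rintro _ ⟨z, hz, rfl⟩
    exact hz.2
  rw [h3] at h2
  exact measure_mono_null (inter_subset_inter_right _ (preimage_mono (subset_toMeasurable _ _)))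
    h2.symm

/-- **Packet NUL.** -/
theorem gNUL : Pool.Agent.Helper30.CIR.StmtNUL := by
  intro N K M m h h' hM hd S hS
  apply measure_null_of_locally_null
  intro x hx
  obtain ⟨c', hxc', hc'⟩ := hM.chart x hx.2
  obtain ⟨c, hxc, hc⟩ := hM.chart (h x) (hd.maps hx.2)
  refine ⟨(h ⁻¹' S ∩ M) ∩ (c'.W ∩ h ⁻¹' c.W), ?_, ?_⟩
  · apply inter_mem self_mem_nhdsWithin
    apply inter_mem
    · exact mem_nhdsWithin_of_mem_nhds (c'.openW.mem_nhds hxc')
    · have h1 : ContinuousWithinAt h M x := hd.smooth.continuousOn x hx.2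
      exact nhdsWithin_mono x inter_subset_right
        (h1.preimage_mem_nhdsWithin (c.openW.mem_nhds hxc))
  · have hcont : ContinuousOn (h' ∘ c.ψ) c.V :=
      hd.smooth'.continuousOn.comp c.smoothψ.continuousOn (fun z hz => (c.mapsψ z hz).1)
    set D : Set (E N) := c.V ∩ (h' ∘ c.ψ) ⁻¹' c'.W with hDdef
    have hsm : ContDiffOn ℝ 1 (h' ∘ c.ψ) c.V :=
      hd.smooth'.comp (c.smoothψ.of_le (by simp)) (fun z hz => (c.mapsψ z hz).1)
    have hG : ContDiffOn ℝ 1 (c'.φ ∘ (h' ∘ c.ψ)) D :=
      (c'.smoothφ.of_le (by simp)).comp (hsm.mono inter_subset_left) (fun z hz => hz.2)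
    have hGd : DifferentiableOn ℝ (c'.φ ∘ (h' ∘ c.ψ)) D := hG.differentiableOn (by simp)
    have h0 := null_in_chart c hc S hS
    have h1 : volume ((c'.φ ∘ (h' ∘ c.ψ)) '' ((c.V ∩ c.ψ ⁻¹' S) ∩ D)) = 0 :=
      addHaar_image_eq_zero_of_differentiableOn_of_addHaar_eq_zero volume
        (hGd.mono inter_subset_right) (measure_mono_null inter_subset_left h0)
    have h2 := null_of_chart c' hc' _ (by
      rintro _ ⟨z, hz, rfl⟩
      exact c'.mapsφ _ ⟨hd.maps' (c.mapsψ z hz.2.1).1, hz.2.2⟩) h1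
    apply measure_mono_null _ h2
    rintro y ⟨⟨hyS, hyM⟩, hyW, hyc⟩
    have h3 : h y ∈ M ∩ c.W := ⟨hd.maps hyM, hyc⟩
    have h4 : c.ψ (c.φ (h y)) = h y := c.right _ h3
    have h5 : h' (h y) = y := hd.left y hyM
    refine ⟨(c'.φ ∘ (h' ∘ c.ψ)) (c.φ (h y)), ⟨c.φ (h y), ⟨⟨c.mapsφ _ h3, ?_⟩, c.mapsφ _ h3, ?_⟩,
      rfl⟩, ?_⟩
    · rw [mem_preimage, h4]
      exact hyS
    · rw [mem_preimage, Function.comp_apply, h4, h5]
      exact hyW
    · rw [Function.comp_apply, Function.comp_apply, h4, h5]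
      exact c'.right y ⟨hyM, hyW⟩

end Pool.Agent.Helper78.CIR
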